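import Mathlib

set_option autoImplicit false

namespace Pool.Agent.Results.MP_ca7dc8_pr.Counter

open Finset

/-- Position in `ℤ^d` after the `t` steps `a`; a step `(i, b)` is `+e_i` if `b`, else `-e_i`. -/
def pos {d t : ℕ} (a : Fin t → Fin d × Bool) : Fin d → ℤ :=
  ∑ s, Pi.single (a s).1 (if (a s).2 then 1 else -1)

open Classical in
/-- Probability that at time `t` one of `n` independent simple random walkers on `ℤ^d` started at
`0` is lonely: all `(2d)^(nt)` choices of the steps are equally likely. -/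
noncomputable def p (n d t : ℕ) : ℝ :=
  (#{ω : Fin n → Fin t → Fin d × Bool | ∃ i, ∀ j, j ≠ i → pos (ω j) ≠ pos (ω i)} : ℝ) /
    (2 * d) ^ (n * t)

open Classical in
noncomputable def E {Ω : Type} [Fintype Ω] (m : ℕ) (a : Ω) (T : Finset Ω) :
    Finset (Fin (m + 1) → Ω) := {ω | ∃ i, ω i = a ∧ ∀ j, j ≠ i → ω j ∈ T}

theorem card_E {Ω : Type} [Fintype Ω] (m : ℕ) (a : Ω) (T : Finset Ω) (h : a ∉ T) :
    #(E m a T) = (m + 1) * #T ^ m := by
  classical
  have : E m a T = univ.biUnion fun i =>
      Fintype.piFinset (Function.update (fun _ => T) i {a}) := by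
    ext ω
    simp only [E, mem_filter, mem_univ, true_and, mem_biUnion, Fintype.mem_piFinset]
    refine exists_congr fun i => ⟨fun h j => ?_, fun h => ⟨by simpa using h i, fun j hj => ?_⟩⟩
    · by_cases e : j = i
      · simp [e, h.1]
      · simp [e, h.2 j e]
    · simpa [hj] using h j
  rw [this, card_biUnion]
  · rw [sum_congr rfl (g := fun _ => #T ^ m)]
    · simp
    · intro i _
      rw [Fintype.card_piFinset, Fin.prod_univ_succAbove _ i]
      simp
  · intro i _ j _ hij
    refine disjoint_left.mpr fun ω h1 h2 => h ?_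
    have a1 := Fintype.mem_piFinset.mp h1 i
    have a2 := Fintype.mem_piFinset.mp h2 i
    simp [hij] at a1 a2
    exact a1 ▸ a2

def k {t : ℕ} (a : Fin t → Fin 1 × Bool) : ℕ := #{s | (a s).2}

theorem pos_eq {t : ℕ} (a b : Fin t → Fin 1 × Bool) : pos a = pos b ↔ k a = k b := by
  have : ∀ a : Fin t → Fin 1 × Bool, pos a 0 = 2 * k a - t := by
    intro a
    rw [pos, Finset.sum_apply, k, ← sum_boole, mul_sum,
      show (t : ℤ) = ∑ _s : Fin t, (1 : ℤ) by simp, ← sum_sub_distrib]
    refine sum_congr rfl fun s _ => ?_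
    rw [Subsingleton.elim (a s).1 0]
    cases (a s).2 <;> simp
  rw [funext_iff, Fin.forall_fin_one, this, this]
  omega

theorem sum_k (t : ℕ) (F : ℕ → ℕ) :
    ∑ a : Fin t → Fin 1 × Bool, F (k a) = ∑ j ∈ range (t + 1), t.choose j * F j := by
  have := sum_powerset_apply_card F (x := (univ : Finset (Fin t)))
  simp only [card_univ, Fintype.card_fin, smul_eq_mul, powerset_univ] at this
  rw [← this]
  refine sum_nbij' (fun a => univ.filter fun s => (a s).2) (fun A s => (0, decide (s ∈ A))) (by simp) (by simp)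
    (fun a _ => funext fun s => Prod.ext (Subsingleton.elim _ _) (by simp)) (by simp) fun _ _ => rfl

theorem card_k (t : ℕ) (P : ℕ → Prop) [DecidablePred P] :
    #{a : Fin t → Fin 1 × Bool | P (k a)} =
      ∑ j ∈ range (t + 1), t.choose j * if P j then 1 else 0 := by
  rw [← sum_k t fun j => if P j then 1 else 0, card_filter]

theorem key (m t : ℕ) (ht : t ≠ 0)
    (h : (∑ i ∈ range (t + 1 + 1), (t + 1).choose i * ((m + 1) *
      (∑ j ∈ range (t + 1 + 1), (t + 1).choose j * if j ≠ i then 1 else 0) ^ m)) * 2 ^ ((m + 1) * t) <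
      ((m + 1) * (∑ j ∈ range (t + 1), t.choose j * if j ≠ t then 1 else 0) ^ m +
        (m + 1) * (∑ j ∈ range (t + 1), t.choose j * if j ≠ t ∧ j ≠ 0 then 1 else 0) ^ m) *
        2 ^ ((m + 1) * (t + 1))) : p (m + 1) 1 (t + 1) < p (m + 1) 1 t := by
  classical
  unfold p
  rw [div_lt_div_iff₀ (by positivity) (by positivity)]
  norm_cast
  refine (Nat.mul_le_mul_right _ ?_).trans_lt (h.trans_le (Nat.mul_le_mul_right _ ?_))
  · rw [← sum_k (t + 1) fun i => (m + 1) *
      (∑ j ∈ range (t + 1 + 1), (t + 1).choose j * if j ≠ i then 1 else 0) ^ m]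
    refine (card_le_card (t := univ.biUnion fun a => E m a {b | k b ≠ k a}) ?_).trans
      (card_biUnion_le.trans (sum_le_sum fun a _ => ?_))
    · intro ω
      simp only [E, mem_filter, mem_univ, true_and, mem_biUnion, ne_eq, pos_eq]
      rintro ⟨i, hi⟩
      exact ⟨_, i, rfl, hi⟩
    · rw [card_E _ _ _ (by simp), card_k _ (· ≠ k a)]
  · have k1 : k (fun _ : Fin t => ((0 : Fin 1), true)) = t := by simp [k]
    have k2 : k (fun _ : Fin t => ((0 : Fin 1), false)) = 0 := by simp [k]
    rw [← card_k t (· ≠ t), ← card_k t fun j => j ≠ t ∧ j ≠ 0,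
      ← card_E m (fun _ => (0, true)) _ (by simp [k1]),
      ← card_E m (fun _ => (0, false)) _ (by simp [k2]), ← card_union_of_disjoint]
    · refine card_le_card fun ω => ?_
      simp only [E, mem_filter, mem_univ, true_and, mem_union, ne_eq, pos_eq]
      rintro (⟨i, h1, h2⟩ | ⟨i, h1, h2⟩)
      · exact ⟨i, fun j hj => by rw [h1, k1]; exact h2 j hj⟩
      · exact ⟨i, fun j hj => by rw [h1, k2]; exact (h2 j hj).2⟩
    · refine disjoint_left.mpr fun ω => ?_
      simp only [E, mem_filter, mem_univ, true_and, ne_eq]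
      rintro ⟨i, h1, _⟩ ⟨j, h3, h4⟩
      by_cases e : i = j
      · rw [← e, h1] at h3
        simpa using congrFun h3 ⟨0, by omega⟩
      · exact (h4 i e).1 (h1 ▸ k1)

theorem result : ∃ d n t : ℕ, 1 ≤ d ∧ 1 ≤ n ∧ p n d (t + 1) < p n d t :=
  ⟨1, 40751 + 1, 16, le_rfl, by norm_num, key _ _ (by norm_num) (by decide +kernel)⟩

end Pool.Agent.Results.MP_ca7dc8_pr.Counter
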